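import Pool.Agent.H560.SK.StmK
import Pool.Agent.H599.AR.T2W

/-!
# Tuples of almost primes from the window lemma (adaptation of `Pool/Agent/H560/SQ/T2H.lean`)
-/

set_option autoImplicit false

namespace Pool.Agent.H23.SK

open Polynomial Filter
open scoped Classical
open Pool.Agent.H985.Chow (mob)
open Pool.Agent.H985.Par (Sft)
open Pool.Agent.H694.Typ (Mn Irn PU mem_PU)
open Pool.Agent.H560.SI (Smt)
open Pool.Agent.H996.Par (Om Om_card Om_lt prod_ge)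
open Pool.Agent.H97.SI (exp_large Tn)
open Pool.Agent.H599.AR (fibres)
open Pool.Agent.H560.SK

/-- lower bound of the density -/
theorem VK_ge {K : Type} [Field K] [Fintype K] {k : ℕ} (τ : Fin k → K[X]) (hτ : Adm τ) (z : ℕ)
    (hz : 1 ≤ z) :
    Real.exp (-((k : ℝ) + (8 * (k : ℝ) ^ 3 + 2 * (k : ℝ) ^ 2))) / (z : ℝ) ^ k ≤ VK τ z := by
  refine prod_ge (K := K) k z hz (fun P => (Om τ P).card) fun P hP => ?_
  rw [mem_PU] at hP
  exact ⟨Om_card τ P, Om_lt τ hP.1 (hτ P hP.1 hP.2.1)⟩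

/-- **Task T2HS.** -/
theorem t2HS (hw : S_winS) : S_t2HS := by
  intro K _ _ _ k lam κw cw hlam0 hκw hcw
  obtain ⟨A, hA⟩ := hw K k
  obtain ⟨cv, hcvdef⟩ : ∃ cv : ℝ,
      cv = Real.exp (-((k : ℝ) + (8 * (k : ℝ) ^ 3 + 2 * (k : ℝ) ^ 2))) := ⟨_, rfl⟩
  have hcv : 0 < cv := by rw [hcvdef]; exact Real.exp_pos _
  have hA1 : (0 : ℝ) < A + 1 := by positivity
  have hk1 : (0 : ℝ) < k + 1 := by positivity
  obtain ⟨κ, hκ0, k1, k2, k3⟩ : ∃ κ : ℝ, 0 < κ ∧ (A + 1) * κ ≤ lam / 16 ∧ (A + 1) * κ ≤ κw ∧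
      (A + 1) * κ ≤ cw / (2 * (k + 1)) := by
    refine ⟨min (lam / 16) (min κw (cw / (2 * (k + 1)))) / (A + 1), by positivity, ?_, ?_, ?_⟩ <;>
      rw [mul_div_cancel₀ _ hA1.ne']
    · exact min_le_left _ _
    · exact (min_le_right _ _).trans (min_le_left _ _)
    · exact (min_le_right _ _).trans (min_le_right _ _)
  have hA0 : (0 : ℝ) ≤ A := Nat.cast_nonneg A
  have hAκ : A * κ ≤ (A + 1) * κ := by nlinarith
  have hκA : κ ≤ (A + 1) * κ := by nlinarith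
  set q : ℝ := (Fintype.card K : ℝ) with hq
  have hq2 : 2 ≤ q := by
    have : 2 ≤ Fintype.card K := Fintype.one_lt_card
    rw [hq]
    exact_mod_cast this
  have hq0 : 0 < q := by linarith
  have hq1 : 1 < q := by linarith
  have hb1 : 1 < q ^ (cw / 2) := Real.one_lt_rpow hq1 (by positivity)
  have hb2 : 1 < q ^ κ := Real.one_lt_rpow hq1 hκ0
  obtain ⟨n1, hn1⟩ := exp_large hb1 (C := 16 * 2 ^ k) (by positivity) hcv k
  obtain ⟨n2, hn2⟩ := exp_large hb2 (C := 8 * 2 ^ k * k * q) (by positivity) hcv (k + 1)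
  obtain ⟨n4, hn4⟩ : ∃ n4 : ℕ, 1 / κ ≤ n4 := exists_nat_ge _
  refine ⟨κ, cv / (4 * 2 ^ k), hκ0, by positivity, n1 + n2 + n4 + 1, ?_⟩
  intro n hn m L τ S G σ hlL hLn hLm hτL hadm hS hσ
  have e1 := hn1 n (by omega)
  have e2 := hn2 n (by omega)
  have e4 : 1 ≤ κ * n := by
    have h5 : (n4 : ℝ) ≤ n := by exact_mod_cast (by omega : n4 ≤ n)
    have h6 : 1 / κ ≤ n := hn4.trans h5
    rw [div_le_iff₀ hκ0] at h6
    linarith
  have hn0 : (0 : ℝ) ≤ n := Nat.cast_nonneg n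
  have hnpos' : (0 : ℝ) < n := by
    have : 0 < n := by omega
    exact_mod_cast this
  -- z
  obtain ⟨z, hz⟩ : ∃ z, z = ⌊κ * n⌋₊ := ⟨_, rfl⟩
  have hz1 : (z : ℝ) ≤ κ * n := by
    rw [hz]
    exact Nat.floor_le (by positivity)
  have hz2 : κ * n < z + 1 := by
    rw [hz]
    exact Nat.lt_floor_add_one _
  have hz3 : 1 ≤ z := by
    rw [hz]
    exact Nat.le_floor (by exact_mod_cast e4)
  have hAzR : (A : ℝ) * z ≤ A * κ * n := by nlinarith
  have hAκn : A * κ * n ≤ (A + 1) * κ * n := mul_le_mul_of_nonneg_right hAκ hn0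
  have k1n : (A + 1) * κ * n ≤ lam / 16 * n := mul_le_mul_of_nonneg_right k1 hn0
  have k2n : (A + 1) * κ * n ≤ κw * n := mul_le_mul_of_nonneg_right k2 hn0
  have k3n : (A + 1) * κ * n ≤ cw / (2 * (k + 1)) * n := mul_le_mul_of_nonneg_right k3 hn0
  have hκn : κ * n ≤ (A + 1) * κ * n := mul_le_mul_of_nonneg_right hκA hn0
  have hL0 : 0 ≤ lam * n := by positivity
  have hLR : 16 * ((z : ℝ)) ≤ L := by linarith
  have hAzL : A * z ≤ L := by
    have : (A * z : ℝ) ≤ L := by linarith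
    exact_mod_cast this
  have hzL : 16 * z ≤ L := by exact_mod_cast hLR
  have hzn : (z : ℝ) ≤ n := by
    have : z ≤ n := by omega
    exact_mod_cast this
  have hzpos : (0 : ℝ) < z := by
    have : 0 < z := by omega
    exact_mod_cast this
  -- V
  obtain ⟨V, hV⟩ : ∃ V : ℝ, V = VK τ z := ⟨_, rfl⟩
  have hV1 : cv / (z : ℝ) ^ k ≤ V := by
    rw [hV, hcvdef]
    exact VK_ge τ hadm z hz3
  have hV2 : cv / (n : ℝ) ^ k ≤ V := le_trans (by gcongr) hV1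
  have hnk : (0 : ℝ) < (n : ℝ) ^ k := by positivity
  have hV0 : 0 < V := lt_of_lt_of_le (by positivity) hV2
  have hqL : 0 < q ^ L := by positivity
  have h2k : (0 : ℝ) < 2 ^ k := by positivity
  -- B
  have hB1 : 2 * ((k + 1 : ℝ) * Fintype.card K) ^ (A * z) * q ^ ((L : ℝ) - cw * n) ≤
      1 / (8 * 2 ^ k) * V * (Fintype.card K : ℝ) ^ L := by
    rw [← hq]
    have b0 : (k + 1 : ℝ) ≤ q ^ k := by
      have h1 : k + 1 ≤ 2 ^ k := Nat.lt_two_pow_self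
      have h2 : (k + 1 : ℝ) ≤ 2 ^ k := by exact_mod_cast h1
      exact h2.trans (pow_le_pow_left₀ (by norm_num) hq2 k)
    have b1 : ((k + 1 : ℝ) * q) ^ (A * z) ≤ q ^ (cw / 2 * n) := by
      have b2 : ((k + 1 : ℝ) * q) ^ (A * z) ≤ (q ^ (k + 1)) ^ (A * z) := by
        rw [pow_succ]
        gcongr
      refine b2.trans ?_
      rw [← pow_mul, ← Real.rpow_natCast]
      refine Real.rpow_le_rpow_of_exponent_le hq1.le ?_
      push_cast
      have b5 : (A : ℝ) * z ≤ cw / (2 * (k + 1)) * n := hAzR.trans (hAκn.trans k3n)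
      have b6 := mul_le_mul_of_nonneg_left b5 hk1.le
      have b7 : ((k : ℝ) + 1) * (cw / (2 * (k + 1)) * n) = cw / 2 * n := by
        field_simp
      linarith
    have b3 : q ^ ((L : ℝ) - cw * n) = q ^ L * (q ^ (cw / 2 * n))⁻¹ * (q ^ (cw / 2 * n))⁻¹ := by
      rw [← Real.rpow_natCast, ← Real.rpow_neg hq0.le, ← Real.rpow_add hq0, ← Real.rpow_add hq0]
      congr 1
      ring
    have b4 : q ^ (cw / 2 * n) = (q ^ (cw / 2)) ^ n := by
      rw [← Real.rpow_natCast, ← Real.rpow_mul hq0.le]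
    have b5 : 0 < q ^ (cw / 2 * n) := by positivity
    have b6 : 16 * 2 ^ k * (n : ℝ) ^ k ≤ cv * q ^ (cw / 2 * n) := by
      rw [b4]
      exact e1
    have b7 : 2 * (q ^ (cw / 2 * n))⁻¹ ≤ 1 / (8 * 2 ^ k) * V := by
      have b8 : 2 * (q ^ (cw / 2 * n))⁻¹ ≤ 1 / (8 * 2 ^ k) * (cv / (n : ℝ) ^ k) := by
        rw [← div_eq_mul_inv, div_le_iff₀ b5]
        have b9 : 1 / (8 * 2 ^ k) * (cv / (n : ℝ) ^ k) * q ^ (cw / 2 * n) =
            (cv * q ^ (cw / 2 * n)) / (8 * 2 ^ k * (n : ℝ) ^ k) := by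
          field_simp
        rw [b9, le_div_iff₀ (by positivity)]
        linarith
      exact b8.trans (mul_le_mul_of_nonneg_left hV2 (by positivity))
    calc 2 * ((k + 1 : ℝ) * q) ^ (A * z) * q ^ ((L : ℝ) - cw * n)
        ≤ 2 * q ^ (cw / 2 * n) * q ^ ((L : ℝ) - cw * n) := by gcongr
      _ = (2 * (q ^ (cw / 2 * n))⁻¹) * q ^ L := by
          rw [b3]
          field_simp
      _ ≤ (1 / (8 * 2 ^ k) * V) * q ^ L := by gcongr
      _ = _ := by ring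
  have hB2 : (k : ℝ) * n * (Fintype.card K : ℝ) ^ (L - z) ≤
      1 / (8 * 2 ^ k) * V * (Fintype.card K : ℝ) ^ L := by
    rw [← hq]
    have b1 : q ^ L = q ^ (L - z) * q ^ z := by
      rw [← pow_add]
      congr 1
      omega
    have b2 : (q ^ κ) ^ n ≤ q ^ z * q := by
      rw [← pow_succ, ← Real.rpow_natCast, ← Real.rpow_natCast, ← Real.rpow_mul hq0.le]
      refine Real.rpow_le_rpow_of_exponent_le hq1.le ?_
      push_cast
      linarith
    have b3 : 8 * 2 ^ k * k * q * (n : ℝ) ^ (k + 1) ≤ cv * (q ^ z * q) := e2.trans (by gcongr)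
    have b4 : 8 * 2 ^ k * k * (n : ℝ) ^ (k + 1) ≤ cv * q ^ z := by
      have : q * (8 * 2 ^ k * k * (n : ℝ) ^ (k + 1)) ≤ q * (cv * q ^ z) := by linarith
      exact le_of_mul_le_mul_left this hq0
    have b5 : (k : ℝ) * n ≤ 1 / (8 * 2 ^ k) * V * q ^ z := by
      have b6 : (k : ℝ) * n ≤ 1 / (8 * 2 ^ k) * (cv / (n : ℝ) ^ k) * q ^ z := by
        have b7 : 1 / (8 * 2 ^ k) * (cv / (n : ℝ) ^ k) * q ^ z =
            (cv * q ^ z) / (8 * 2 ^ k * (n : ℝ) ^ k) := by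
          field_simp
        rw [b7, le_div_iff₀ (by positivity)]
        have b8 : (k : ℝ) * n * (8 * 2 ^ k * (n : ℝ) ^ k) = 8 * 2 ^ k * k * (n : ℝ) ^ (k + 1) := by
          ring
        linarith
      calc (k : ℝ) * n ≤ 1 / (8 * 2 ^ k) * (cv / (n : ℝ) ^ k) * q ^ z := b6
        _ ≤ 1 / (8 * 2 ^ k) * V * q ^ z := by gcongr
    rw [b1]
    calc (k : ℝ) * n * q ^ (L - z) ≤ (1 / (8 * 2 ^ k) * V * q ^ z) * q ^ (L - z) := by gcongr
      _ = _ := by ring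
  -- the windows
  have hex : ∀ s : K[X], ∃ F : K[X], s ∈ S → F.Monic ∧ F.natDegree = m ∧
      derivative F = s ^ 2 ∧ ∀ t : K[X], t.degree < (L : WithBot ℕ) → F + t ^ 2 ∈ G := by
    intro s
    by_cases hs' : s ∈ S
    · obtain ⟨F, hF⟩ := (hS s hs').2.2.2.2.1
      exact ⟨F, fun _ => hF⟩
    · exact ⟨0, fun h => absurd h hs'⟩
  choose Fs hFs using hex
  obtain ⟨p, hp⟩ : ∃ p : K[X] → Prop, ∀ f, p f ↔
      (∀ i, mob (f + τ i ^ 2) = σ i ∧ Sft z (f + τ i ^ 2)) :=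
    ⟨fun f => ∀ i, mob (f + τ i ^ 2) = σ i ∧ Sft z (f + τ i ^ 2), fun f => Iff.rfl⟩
  have hY : ∀ s ∈ S, 1 / (4 * 2 ^ k) * V * q ^ L ≤
      ((Tn K L).filter (fun t => p (Fs s + 1 * t ^ 2))).card := by
    intro s hs'
    have hE : (Tn K L).filter (fun t => p (Fs s + 1 * t ^ 2)) = (Tn K L).filter
        (fun t => ∀ i, mob (Fs s + τ i ^ 2 + t ^ 2) = σ i ∧
          Sft z (Fs s + τ i ^ 2 + t ^ 2)) := by
      refine Finset.filter_congr fun t _ => ?_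
      rw [hp]
      refine forall_congr' fun i => ?_
      have e : Fs s + 1 * t ^ 2 + τ i ^ 2 = Fs s + τ i ^ 2 + t ^ 2 := by ring
      rw [e]
    rw [hE]
    obtain ⟨s1, s2, -, s5, -, s7⟩ := hS s hs'
    obtain ⟨f1, f2, f3, -⟩ := hFs s hs'
    rw [hV]
    refine hA m L n z τ s (Fs s) (q ^ ((L : ℝ) - cw * n)) σ hLm hz3 hAzL hzL hτL hadm s1 s2 s5 f1
      f2 f3 (by positivity) ?_ ?_ ?_ hσ
    · intro F' D L' I t1 t2 t3 t4 t5 t6 t7
      refine s7 F' t1 t2 t3 D L' I t4 t5 ?_ t7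
      have t8 : (D.natDegree : ℝ) ≤ (A * z : ℕ) := by exact_mod_cast t6
      push_cast at t8
      linarith
    · rw [← hV]
      exact hB1
    · rw [← hV]
      exact hB2
  have h3 := fibres (one_ne_zero : (1 : K[X]) ≠ 0) S G Fs p
    (1 / (4 * 2 ^ k) * V * q ^ L) (fun s hs' => ⟨by rw [one_mul]; exact (hFs s hs').2.2.1,
      fun t ht => by rw [one_mul]; exact (hFs s hs').2.2.2 t ht⟩) hY
  have hE : G.filter p = G.filter
      (fun f => ∀ i, mob (f + τ i ^ 2) = σ i ∧ Sft z (f + τ i ^ 2)) :=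
    Finset.filter_congr fun f _ => hp f
  rw [hE] at h3
  rw [← hz]
  refine le_trans ?_ h3
  calc cv / (4 * 2 ^ k) * (S.card : ℝ) * q ^ L / (n : ℝ) ^ k =
      (S.card : ℝ) * (1 / (4 * 2 ^ k) * (cv / (n : ℝ) ^ k) * q ^ L) := by ring
    _ ≤ (S.card : ℝ) * (1 / (4 * 2 ^ k) * V * q ^ L) := by gcongr

end Pool.Agent.H23.SK
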